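import Mathlib
import Pool.Agent.Lib.helper5.Book
import Pool.Agent.Lib.helper5.PTree
import Pool.Agent.H.MP_de06d2_co.B

set_option autoImplicit false

namespace Pool.Agent.H.MP_951455_co

open Finset SimpleGraph

lemma realize {V α : Type} [Fintype V] [LinearOrder α] (ρ : V → α) :
    ∃ r : V → ℝ, ∀ u v, r u < r v ↔ ρ u < ρ v := by
  let r : V → ℝ := fun v => (univ.filter fun w => ρ w < ρ v).card
  have h1 : ∀ u v, ρ u < ρ v → r u < r v := fun u v h => Nat.cast_lt.mpr (card_lt_card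
    ⟨fun w hw => by simp only [mem_filter, mem_univ, true_and] at hw ⊢; exact hw.trans h,
      fun q => by simpa using q (show u ∈ _ by simpa using h)⟩)
  refine ⟨r, fun u v => ⟨fun h => ?_, h1 u v⟩⟩
  rcases lt_trichotomy (ρ u) (ρ v) with e | e | e
  · exact e
  · simp [r, e] at h
  · exact absurd h (h1 _ _ e).not_gt

theorem dbook {V : Type} (G : SimpleGraph V) (ρ : V → ℝ) (hρ : Function.Injective ρ)
    (hx : ∀ a b c d, G.Adj a b → G.Adj c d → ¬ (ρ a < ρ c ∧ ρ c < ρ b ∧ ρ b < ρ d)) :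
    ∃ p : V → ℝ × ℝ, Function.Injective p ∧ ∃ γ : V → V → unitInterval → ℝ × ℝ,
      (∀ u v, G.Adj u v → Continuous (γ u v) ∧ Function.Injective (γ u v) ∧
        γ u v 0 = p u ∧ γ u v 1 = p v) ∧
      (∀ u v w x, G.Adj u v → γ u v x = p w → (w = u ∧ x = 0) ∨ (w = v ∧ x = 1)) ∧
      (∀ u v u' v' x y, G.Adj u v → G.Adj u' v' → (u, v) ≠ (u', v') →
        γ u v x = γ u' v' y → ∃ w, γ u v x = p w) := by
  classical
  have ne : ∀ u v, G.Adj u v → ρ v - ρ u ≠ 0 := fun u v h e => h.ne' (hρ (sub_eq_zero.1 e))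
  refine ⟨fun v => (ρ v, 0), fun u v h => hρ (congrArg Prod.fst h),
    fun u v t => (ρ u + t * (ρ v - ρ u), t * (1 - t) * ((ρ v - ρ u) * |ρ v - ρ u|)),
    fun u v h => ⟨by fun_prop, fun s t e => ?_, by simp, by simp⟩, ?_, ?_⟩
  · have := congrArg Prod.fst e
    simp only [add_right_inj] at this
    exact Subtype.ext (mul_right_cancel₀ (ne u v h) this)
  · intro u v w x h e
    simp only [Prod.mk.injEq, mul_eq_zero, ne u v h, abs_eq_zero, or_false] at e
    obtain ⟨e1, e2 | e2⟩ := e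
    · exact .inl ⟨hρ (by rw [← e1, e2]; ring), Subtype.ext e2⟩
    · have e3 : (x : ℝ) = 1 := by linarith
      exact .inr ⟨hρ (by rw [← e1, e3]; ring), Subtype.ext e3⟩
  · intro u v u' v' x y h h' hne e
    by_cases x0 : (x : ℝ) = 0
    · exact ⟨u, by simp [x0]⟩
    by_cases x1 : (x : ℝ) = 1
    · exact ⟨v, by simp [x1]⟩
    exfalso
    have a0 : (0 : ℝ) < x := lt_of_le_of_ne x.2.1 (Ne.symm x0)
    have a1 : (x : ℝ) < 1 := lt_of_le_of_ne x.2.2 x1
    have b0 := y.2.1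
    have b1 := y.2.2
    have px : (0 : ℝ) < x * (1 - x) := mul_pos a0 (by linarith)
    have py : (0 : ℝ) ≤ y * (1 - y) := mul_nonneg b0 (by linarith)
    simp only [Prod.mk.injEq] at e
    obtain ⟨e1, e2⟩ := e
    rcases (ne u v h).lt_or_gt with s | s <;> rcases (ne u' v' h').lt_or_gt with s' | s'
    · rw [abs_of_neg s, abs_of_neg s'] at e2
      obtain ⟨f1, f2⟩ := Pool.Agent.Lib.helper5.Book.core (a := ρ v) (b := ρ u) (c := ρ v')
        (d := ρ u') (X := ρ u + x * (ρ v - ρ u)) (by nlinarith) (by nlinarith)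
        (by rw [e1]; nlinarith) (by rw [e1]; nlinarith)
        (by linear_combination (-1 : ℝ) * e2 + (ρ u' + ρ v' - (ρ u + x * (ρ v - ρ u)) -
          (ρ u' + y * (ρ v' - ρ u'))) * (-e1))
        (hx _ _ _ _ h.symm h'.symm) (hx _ _ _ _ h'.symm h.symm)
      exact hne (Prod.ext (hρ f2) (hρ f1))
    · rw [abs_of_neg s, abs_of_pos s'] at e2
      nlinarith [mul_pos px (mul_pos_of_neg_of_neg s s), mul_nonneg py (mul_pos s' s').le]
    · rw [abs_of_pos s, abs_of_neg s'] at e2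
      nlinarith [mul_pos px (mul_pos s s), mul_nonneg py (mul_pos_of_neg_of_neg s' s').le]
    · rw [abs_of_pos s, abs_of_pos s'] at e2
      obtain ⟨f1, f2⟩ := Pool.Agent.Lib.helper5.Book.core (a := ρ u) (b := ρ v) (c := ρ u')
        (d := ρ v') (X := ρ u + x * (ρ v - ρ u)) (by nlinarith) (by nlinarith)
        (by rw [e1]; nlinarith) (by rw [e1]; nlinarith)
        (by linear_combination e2 + (ρ u' + ρ v' - (ρ u + x * (ρ v - ρ u)) -
          (ρ u' + y * (ρ v' - ρ u'))) * (-e1))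
        (hx _ _ _ _ h h') (hx _ _ _ _ h' h)
      exact hne (Prod.ext (hρ f1) (hρ f2))

lemma dyad (D J : ℕ) : ∑ j ∈ (range J).filter (fun j => 2 ^ j ≤ D), 2 ^ j ≤ 2 ^ J ∧
    ∑ j ∈ (range J).filter (fun j => 2 ^ j ≤ D), 2 ^ j ≤ 2 * D := by
  induction J with
  | zero => simp
  | succ J ih =>
    rw [range_add_one, filter_insert]
    split_ifs with h
    · rw [sum_insert (by simp), pow_succ]; omega
    · rw [pow_succ]; omega

open Pool.Agent.H.MP_de06d2_co in
lemma degsum {V : Type} [Fintype V] {H : SimpleGraph V} {ρ : V → ℕ} {Bk : V → Finset V}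
    (E : Elim H 4 ρ Bk) : ∃ N : V → Finset V, (∀ h h', h = h' ∨ H.Adj h h' → h' ∈ N h) ∧
      ∑ h, (N h).card ≤ 9 * Fintype.card V := by
  classical
  refine ⟨fun h => insert h (Bk h ∪ univ.filter fun v => h ∈ Bk v), ?_, ?_⟩
  · rintro h h' (rfl | a)
    · simp
    · rcases lt_trichotomy (ρ h) (ρ h') with e | e | e
      · simp [E.adj _ _ a e]
      · exact absurd (E.inj e) a.ne
      · simp [E.adj _ _ a.symm e]
  · have a : ∑ h, (univ.filter fun v => h ∈ Bk v).card = ∑ v, (Bk v).card := by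
      have := sum_card_bipartiteAbove_eq_sum_card_bipartiteBelow (s := (univ : Finset V))
        (t := (univ : Finset V)) (fun h v => h ∈ Bk v)
      simpa [bipartiteAbove, bipartiteBelow] using this
    have b : ∑ v, (Bk v).card ≤ 4 * Fintype.card V := by
      have := sum_le_card_nsmul univ (fun v => (Bk v).card) 4 fun v _ => E.card v
      simpa [mul_comm] using this
    have c : ∑ h, (insert h (Bk h ∪ univ.filter fun v => h ∈ Bk v)).card ≤
        ∑ h, (1 + (Bk h).card + (univ.filter fun v => h ∈ Bk v).card) :=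
      sum_le_sum fun h _ => by
        have := card_insert_le h (Bk h ∪ univ.filter fun v => h ∈ Bk v)
        have := card_union_le (Bk h) (univ.filter fun v => h ∈ Bk v)
        omega
    rw [sum_add_distrib, sum_add_distrib, a] at c
    rw [sum_const, card_univ, smul_eq_mul] at c
    beta_reduce
    omega

open Classical in
lemma near3 {k : ℕ} (p : Fin k) :
    (univ.filter fun q => p = q ∨ (pathGraph k).Adj p q).card ≤ 3 := by
  refine le_trans (card_le_card_of_injOn (t := {p.1 - 1, p.1, p.1 + 1}) Fin.val ?_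
    Fin.val_injective.injOn) card_le_three
  intro q hq
  simp only [coe_filter, mem_univ, true_and, Set.mem_ofPred_eq, pathGraph_adj] at hq
  simp only [coe_insert, coe_singleton, Set.mem_insert_iff, Set.mem_singleton_iff]
  rcases hq with rfl | h <;> omega

def val (m J : ℕ) (x : ℕ × ℕ × ℕ) : Prop :=
  x.1 < J ∧ x.2.1 ≤ m * 2 ^ (J - x.1) ∧ x.2.2 < m * 2 ^ x.1

def E0 (x y : ℕ × ℕ × ℕ) : Prop :=
  x.1 = y.1 ∧ y.2.2 = 0 ∧ ((0 < x.2.2 ∧ x.2.1 = y.2.1) ∨ (x.2.2 = 0 ∧ 0 < x.2.1 ∧ y.2.1 = 0))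

def par (x : ℕ × ℕ × ℕ) : ℕ × ℕ × ℕ :=
  if 0 < x.2.2 then (x.1, x.2.1, 0) else if 0 < x.2.1 then (x.1, 0, 0) else (0, 0, 0)

lemma fin_val (m J : ℕ) : {x | val m J x}.Finite := by
  refine ((Set.finite_Iio J).prod ((Set.finite_Iic (m * 2 ^ J)).prod
    (Set.finite_Iio (m * 2 ^ J)))).subset ?_
  rintro ⟨j, i, l⟩ ⟨h1, h2, h3⟩
  exact ⟨h1, h2.trans (Nat.mul_le_mul_left m (Nat.pow_le_pow_right (by omega) (by omega))),
    h3.trans_le (Nat.mul_le_mul_left m (Nat.pow_le_pow_right (by omega) h1.le))⟩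

theorem noemb {c k J : ℕ} (hc : 1 ≤ c) (hJ : J = 36 * (3 * c) ^ 2 + 1) {V : Type} [Fintype V]
    (hV : Fintype.card V ≤ 2 * (3 * c) ^ 2 * 2 ^ J) (N : V → Finset V)
    (hN : ∑ h, (N h).card ≤ 9 * Fintype.card V)
    (φ : {x // val (3 * c) J x} → V × Fin k × Fin c) (hφ : Function.Injective φ)
    (h : ∀ x y : {x // val (3 * c) J x}, E0 x.1 y.1 ∨ x = y → (φ x).1 ∈ N (φ y).1 ∧
      ((φ y).2.1 = (φ x).2.1 ∨ (pathGraph k).Adj (φ y).2.1 (φ x).2.1)) : False := by
  classical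
  have cnt : ∀ (n : ℕ) (ψ : Fin n → {x // val (3 * c) J x}), Function.Injective ψ →
      ∀ (A : Finset V) (p : Fin k), (∀ i, (φ (ψ i)).1 ∈ A ∧
        (p = (φ (ψ i)).2.1 ∨ (pathGraph k).Adj p (φ (ψ i)).2.1)) → n ≤ A.card * (3 * c) := by
    intro n ψ hψ A p hA
    have := card_le_card_of_injOn (s := univ)
      (t := A ×ˢ (univ.filter fun q => p = q ∨ (pathGraph k).Adj p q) ×ˢ (univ : Finset (Fin c)))
      (φ ∘ ψ) (fun i _ => by simpa using hA i) (hφ.comp hψ).injOn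
    simp only [card_univ, Fintype.card_fin, card_product] at this
    exact this.trans (Nat.mul_le_mul_left _ (Nat.mul_le_mul_right c (near3 p)))
  have pos : ∀ j, 0 < 3 * c * 2 ^ j := fun j => by positivity
  have big : ∀ j ∈ range J, 2 ^ J ≤ (univ.filter fun h => 2 ^ j ≤ (N h).card).card * 2 ^ j := by
    intro j hj
    rw [mem_range] at hj
    have := cnt (3 * c * 2 ^ (J - j) + 1) (fun i => ⟨(j, i, 0), hj, Nat.lt_succ_iff.1 i.2, pos j⟩)
      (fun a b e => by simpa [Fin.ext_iff] using e) (univ.filter fun h => 2 ^ j ≤ (N h).card)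
      (φ ⟨(j, 0, 0), hj, Nat.zero_le _, pos j⟩).2.1 (fun i => ⟨?_, (h _ _ ?_).2⟩)
    · have h2 : 2 ^ (J - j) ≤ (univ.filter fun h => 2 ^ j ≤ (N h).card).card := by
        refine Nat.le_of_mul_le_mul_right ?_ (show 0 < 3 * c by omega)
        rw [mul_comm]; omega
      calc 2 ^ J = 2 ^ (J - j) * 2 ^ j := by rw [← pow_add, Nat.sub_add_cancel hj.le]
        _ ≤ _ := Nat.mul_le_mul_right _ h2
    · refine mem_filter.2 ⟨mem_univ _, ?_⟩
      have := cnt (3 * c * 2 ^ j) (fun l => ⟨(j, i, l), hj, Nat.lt_succ_iff.1 i.2, l.2⟩)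
        (fun a b e => by simpa [Fin.ext_iff] using e) _ _
        (fun l => h _ ⟨(j, i, 0), hj, Nat.lt_succ_iff.1 i.2, pos j⟩ (by
          rcases Nat.eq_zero_or_pos l with e | e
          · exact .inr (by simp [e])
          · exact .inl ⟨rfl, rfl, .inl ⟨e, rfl⟩⟩))
      refine Nat.le_of_mul_le_mul_right ?_ (show 0 < 3 * c by omega)
      rw [mul_comm]; exact this
    · rcases Nat.eq_zero_or_pos i with e | e
      · exact .inr (by simp [e])
      · exact .inl ⟨rfl, rfl, .inr ⟨rfl, e, rfl⟩⟩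
  have s1 : J * 2 ^ J ≤ ∑ j ∈ range J, (univ.filter fun h => 2 ^ j ≤ (N h).card).card * 2 ^ j := by
    simpa using card_nsmul_le_sum _ _ _ big
  have s2 : ∑ j ∈ range J, (univ.filter fun h => 2 ^ j ≤ (N h).card).card * 2 ^ j =
      ∑ h, ∑ j ∈ (range J).filter (fun j => 2 ^ j ≤ (N h).card), 2 ^ j := by
    simp only [card_filter, sum_mul, sum_filter, ite_mul, one_mul, zero_mul]
    exact sum_comm
  have s3 : ∑ h, ∑ j ∈ (range J).filter (fun j => 2 ^ j ≤ (N h).card), 2 ^ j ≤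
      2 * ∑ h, (N h).card := by
    rw [mul_sum]; exact sum_le_sum fun h _ => (dyad _ _).2
  have : J * 2 ^ J ≤ (36 * (3 * c) ^ 2) * 2 ^ J := by linarith
  have := Nat.le_of_mul_le_mul_right this (by positivity)
  omega

lemma fiber (m J j : ℕ) (hm : 1 ≤ m) [Fintype {x // val m J x}] :
    (univ.filter fun x : {x // val m J x} => x.1.1 = j).card ≤ 2 * m ^ 2 * 2 ^ J := by
  by_cases hj : j < J
  · refine le_trans (card_le_card_of_injOn (t := range (m * 2 ^ (J - j) + 1) ×ˢ range (m * 2 ^ j))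
      (fun x => x.1.2) ?_ ?_) ?_
    · rintro ⟨⟨a, i, l⟩, h1, h2, h3⟩ hx
      obtain rfl : a = j := by simpa using hx
      simpa [Nat.lt_succ_iff] using And.intro h2 h3
    · rintro ⟨⟨a, x⟩, _⟩ hx ⟨⟨b, y⟩, _⟩ hy e
      obtain rfl : a = j := by simpa using hx
      obtain rfl : b = a := by simpa using hy
      exact Subtype.ext (Prod.ext rfl e)
    · have : 2 ^ J = 2 ^ (J - j) * 2 ^ j := by rw [← pow_add, Nat.sub_add_cancel hj.le]
      have p : 1 ≤ m * 2 ^ (J - j) := Nat.mul_pos hm (by positivity)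
      rw [card_product, card_range, card_range, this]
      calc _ ≤ (2 * (m * 2 ^ (J - j))) * (m * 2 ^ j) := Nat.mul_le_mul_right _ (by omega)
        _ = _ := by ring
  · rw [filter_eq_empty_iff.2 fun x _ (e : x.1.1 = j) => hj (e ▸ x.2.1)]; simp

lemma par_val {m J : ℕ} (hm : 1 ≤ m) {x : ℕ × ℕ × ℕ} (hx : val m J x) : val m J (par x) := by
  obtain ⟨h1, h2, h3⟩ := hx
  unfold par
  split_ifs
  · exact ⟨h1, h2, by simp only; omega⟩
  · exact ⟨h1, by simp, by simp only; omega⟩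
  · exact ⟨by simp only; omega, by simp, by simp; omega⟩

lemma par_rk {x : ℕ × ℕ × ℕ} (hx : x ≠ (0, 0, 0)) :
    (par x).1 + (par x).2.1 + (par x).2.2 < x.1 + x.2.1 + x.2.2 := by
  obtain ⟨j, i, l⟩ := x
  simp only [ne_eq, Prod.mk.injEq] at hx
  unfold par
  split_ifs <;> simp only at * <;> omega

lemma E0_par {x y : ℕ × ℕ × ℕ} (h : E0 x y) : y = par x := by
  obtain ⟨j, i, l⟩ := x
  obtain ⟨j', i', l'⟩ := y
  unfold E0 at h; unfold par
  split_ifs <;> simp only [Prod.mk.injEq] at * <;> omega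

lemma nocross {a b c d : ℕ × ℕ × ℕ} (h : E0 a b ∨ E0 b a) (h' : E0 c d ∨ E0 d c) :
    let ρ : ℕ × ℕ × ℕ → ℕ ×ₗ ℕ ×ₗ ℕ := fun x => toLex (x.1, toLex x.2)
    ¬ (ρ a < ρ c ∧ ρ c < ρ b ∧ ρ b < ρ d) := by
  obtain ⟨a1, a2, a3⟩ := a
  obtain ⟨b1, b2, b3⟩ := b
  obtain ⟨c1, c2, c3⟩ := c
  obtain ⟨d1, d2, d3⟩ := d
  simp only [E0, Prod.Lex.toLex_lt_toLex] at *
  omega

end Pool.Agent.H.MP_951455_co
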